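import Pool.Agent.H75.GA.Tat

/-! The relation for an action by rational combinations of automorphisms of finite order. -/

noncomputable section

namespace GD.GA

open Complex Module NumberField

variable {S : Str}

theorem isHom_of_span {G : Set (Module.End ℂ S.W)} (h1 : ∀ g ∈ G, IsHom S S g)
    {y : Module.End ℂ S.W} (hy : y ∈ Submodule.span ℚ G) : IsHom S S y := by
  induction hy using Submodule.span_induction with
  | mem x hx => exact h1 x hx
  | zero => exact isHom_zero
  | add x y _ _ hx hy => exact isHom_add hx hy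
  | smul a x _ hx =>
    rw [ratC_smul]
    exact isHom_smul a hx

theorem good_of_span (P : Pol S) {G : Set (Module.End ℂ S.W)} (h1 : ∀ g ∈ G, IsHom S S g)
    (h2 : ∀ g ∈ G, ∃ M, 0 < M ∧ g ^ M = 1 ∧ ∀ (N : ℕ) [NeZero N], 3 ≤ N → M ∣ N → ∀ a,
      RelPiece N S (eigPiece N S g a))
    {y : Module.End ℂ S.W} (hy : y ∈ Submodule.span ℚ G) :
    ∃ m, 0 < m ∧ ∀ (D : ℕ) [NeZero D], m ∣ D → 3 ≤ D → ∀ δ c, IsCoef δ D c → Good S D δ c y := by
  induction hy using Submodule.span_induction with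
  | mem g hg =>
    obtain ⟨m, hm, hgm, h3⟩ := h2 g hg
    refine ⟨m, hm, fun D _ hD h δ c hc => ?_⟩
    have hgD : g ^ D = 1 := by
      obtain ⟨k, rfl⟩ := hD
      rw [pow_mul, hgm, one_pow]
    exact good_aut P h hc (h1 g hg) hgD (h3 D h hD)
  | zero => exact ⟨1, one_pos, fun D _ _ _ δ c _ => good_zero⟩
  | add x y _ _ hx hy =>
    obtain ⟨m, hm, h⟩ := hx
    obtain ⟨m', hm', h'⟩ := hy
    exact ⟨m * m', Nat.mul_pos hm hm', fun D _ hD h0 δ c hc =>
      good_add (h D ((Dvd.intro m' rfl).trans hD) h0 δ c hc)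
        (h' D ((Dvd.intro_left m rfl).trans hD) h0 δ c hc)⟩
  | smul a x _ hx =>
    obtain ⟨m, hm, h⟩ := hx
    refine ⟨m, hm, fun D _ hD h0 δ c hc => ?_⟩
    rw [ratC_smul]
    exact good_smul a (h D hD h0 δ c hc)

section action

variable {K : Type} [Field K] [NumberField K] {κ : K →ₙ+* Module.End ℂ S.W}

/-- The relation at a level at which all elements of the field are good. -/
theorem relPiece_of_good (hκ : ∀ a, IsHom S S (κ a)) {e : K →+* ℂ} {D : ℕ} [NeZero D]
    (he : ∀ x, e x ∈ cyc D) (h : ∀ δ c, IsCoef δ D c → ∀ i, Good S D δ c (κ (bas K i))) :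
    RelPiece D S (fun l => eigenpart κ (phi e he l)) := by
  refine rel_of_lin fun δ c hc m => ?_
  choose t ht1 ht2 using h δ c hc
  have hA : ∀ a, S.A δ * κ a = κ a * S.A δ := by
    intro a
    apply LinearMap.ext
    intro w
    exact A_nat δ (κ a) (hκ a).betti (hκ a).deRham w
  have hH : ∀ a, DT.hOp S * κ a = κ a * DT.hOp S := by
    intro a
    apply LinearMap.ext
    intro w
    exact DT.isNat_hOp.nat S S (κ a) (hκ a) w
  let b : Fin (finrank ℚ K) → cyc D := fun i => eRes e he (bad K i)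
  have hb : ∀ (l : (ZMod D)ˣ) i, phi e he l (bad K i) = ((sAut D l (b i) : cyc D) : ℂ) :=
    fun _ _ => rfl
  let n : (ZMod D)ˣ → ℕ := fun l => spaceType S (eigenpart κ (phi e he l))
  have hn : ∀ l, ∑ i, sAut D l (b i) * t i = (n l : cyc D) := by
    intro l
    apply Subtype.ext
    have h1 := part_hOp hκ (phi e he l)
    rw [part_trace hκ hH] at h1
    rw [AddSubmonoidClass.coe_finsetSum]
    have h2 : (((n l : ℕ) : cyc D) : ℂ) = (n l : ℂ) := rfl
    rw [h2, ← h1]
    refine Finset.sum_congr rfl fun i _ => ?_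
    rw [← ht1, hb]
    rfl
  rw [part_trace hκ hA]
  have h3 : ∀ l : (ZMod D)ˣ, ∑ i, sAut D m (b i) * sAut D l⁻¹ (t i) = (n (l * m) : cyc D) := by
    intro l
    rw [← map_natCast (sAut D l⁻¹), ← hn, map_sum]
    refine Finset.sum_congr rfl fun i _ => ?_
    rw [map_mul, ← sAut_mul, inv_mul_cancel_left]
  have h4 : ∀ l : (ZMod D)ˣ, ∑ i, phi e he m (bad K i) * ((sAut D l⁻¹ (t i) : cyc D) : ℂ) =
      (n (l * m) : ℂ) := by
    intro l
    have h5 := congrArg (fun z : cyc D => (z : ℂ)) (h3 l)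
    simp only [AddSubmonoidClass.coe_finsetSum] at h5
    exact h5
  calc _ = ∑ i, ∑ l, c l * (phi e he m (bad K i) * ((sAut D l⁻¹ (t i) : cyc D) : ℂ)) := by
        refine Finset.sum_congr rfl fun i _ => ?_
        rw [ht2, Finset.mul_sum]
        refine Finset.sum_congr rfl fun l _ => ?_
        ring
    _ = ∑ l, c l * ∑ i, phi e he m (bad K i) * ((sAut D l⁻¹ (t i) : cyc D) : ℂ) := by
        rw [Finset.sum_comm]
        exact Finset.sum_congr rfl fun l _ => (Finset.mul_sum _ _ _).symm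
    _ = ∑ l, c l * (n (l * m) : ℂ) := Finset.sum_congr rfl fun l _ => by rw [h4]

omit [NumberField K] in
/-- a determinant of periods of the factor is one of the subspace -/
theorem spacePeriod_of_factor {τ : K →+* ℂ} {z : ℂ} (hz : IsFactorPeriod κ τ z) :
    IsSpacePeriod S (eigenpart κ τ) z := by
  obtain ⟨n, v, P, hv, hvL, hvP, rfl, h0⟩ := hz
  have hlin : LinearIndependent ℂ fun i => ∑ j, P i j • v j := by
    rw [Fintype.linearIndependent_iff]
    intro u hu
    have h1 : ∑ j, (∑ i, u i * P i j) • v j = 0 := by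
      rw [← hu]
      simp only [Finset.smul_sum, smul_smul, Finset.sum_smul]
      exact Finset.sum_comm
    have h2 := (Fintype.linearIndependent_iff.1 hv) _ h1
    by_contra hcon
    push Not at hcon
    obtain ⟨i, hi⟩ := hcon
    refine h0 (Matrix.exists_vecMul_eq_zero_iff.1 ⟨u, fun h3 => hi (congrFun h3 i), ?_⟩)
    funext j
    exact h2 j
  refine ⟨n, v, fun i => ∑ j, P i j • v j, P, hv, hvL, hlin, ?_, fun j => (hvP j).1,
    fun i => (hvP i).2, fun i => rfl, rfl⟩
  rw [← hvL]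
  apply Submodule.eq_of_le_of_finrank_eq
  · rw [Submodule.span_le]
    rintro _ ⟨i, rfl⟩
    exact Submodule.sum_mem _ fun j _ =>
      Submodule.smul_mem _ _ (Submodule.subset_span (Set.mem_range_self j))
  · rw [finrank_span_eq_card hlin, finrank_span_eq_card hv]

/-- The relation at the conductor from the relation at some level. -/
theorem factorRelation_of_piece (P : Pol S) (hκ : ∀ a, IsHom S S (κ a)) {e : K →+* ℂ} {D : ℕ}
    [NeZero D] (hD : LiesIn e D) (hD3 : 3 ≤ D) {U : (ZMod D)ˣ → Submodule ℂ S.W}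
    (hU : IsFieldPiece D S e κ U) (h : RelPiece D S U) : FactorRelation κ e := by
  intro d _ hd
  have hd' : LiesIn e d := by
    rw [hd]
    exact liesIn_conductor ⟨D, hD⟩
  have hUp : ∀ l, U l = eigenpart κ (phi e hD.2 l) := fun l =>
    hU l _ ((isPhi_iff e hD.2 l _).2 rfl)
  choose z hz using fun τ => part_period hκ τ
  have hall : RelAll Pool.Agent.H11.GD.cls D e hD.2 z (fun τ => spaceType S (eigenpart κ τ)) := by
    intro ε hε l
    have h1 := h ε (fun l' => type_iff.2 (by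
      rw [hUp]
      exact hε l')) l _ (by
      rw [hUp]
      exact hz _)
    rw [cls_of_sim gammaSpec h1, cls_gammaProd gammaSpec]
  obtain ⟨w, hw⟩ := part_type hκ P
  have hall' := hall.change gammaSpec hD3 hd'.2 hw
  intro ε hε l τ hτ z' hz'
  rw [isPhi_iff e hd'.2] at hτ
  subst hτ
  have h2 := hall' ε (fun l' =>
    type_iff.1 (hε l' _ ((isPhi_iff e hd'.2 l' _).2 rfl))) l
  have hz0 := spacePeriod_dlog (hz (phi e hd'.2 l))
  have h3 : Sim (z (phi e hd'.2 l)) (gammaProd d ε l) := by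
    refine sim_of_cls gammaSpec hz0.1 (gammaProd_ne _ _ _) ?_
    rw [h2, cls_gammaProd gammaSpec]
  have h4 := spacePeriod_dlog (spacePeriod_of_factor hz')
  exact Sim.trans (sim_of_dlog h4.1 hz0.1 fun δ => by rw [← h4.2, ← hz0.2]) h3

/-- The relation for a field which acts, up to endomorphisms into the span of the Tate classes, by
rational combinations of automorphisms of finite order for which the relation holds at all levels
divisible by some `M`. -/
theorem factorRelation_of_levels (P : Pol S) (G : Set (Module.End ℂ S.W))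
    (h1 : ∀ g ∈ G, IsHom S S g) (h2 : ∀ g ∈ G, ∃ M, 0 < M ∧ g ^ M = 1 ∧ ∀ (N : ℕ) [NeZero N],
      3 ≤ N → M ∣ N → ∀ a, RelPiece N S (eigPiece N S g a))
    {e : K →+* ℂ} (he : ∃ d, LiesIn e d) (hκ : ∀ a, IsHom S S (κ a))
    (hk : ∀ a, ∃ y ∈ Submodule.span ℚ G, ∀ x, κ a x - y x ∈ tateSpan S) :
    FactorRelation κ e := by
  choose y hy hyt using fun i => hk (bas K i)
  choose m hm hgood using fun i => good_of_span P h1 h2 (hy i)
  have hc := liesIn_conductor he
  let D : ℕ := conductor e * (3 * ∏ i, m i)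
  have hD0 : 0 < 3 * ∏ i, m i := Nat.mul_pos (by norm_num) (Finset.prod_pos fun i _ => hm i)
  have : NeZero D := ⟨(Nat.mul_pos hc.1 hD0).ne'⟩
  have : NeZero (conductor e) := ⟨hc.1.ne'⟩
  have : NeZero (3 * ∏ i, m i) := ⟨hD0.ne'⟩
  have hD3 : 3 ≤ D := by
    have h4 : 0 < ∏ i, m i := Finset.prod_pos fun i _ => hm i
    have h5 : 3 * 1 ≤ 3 * ∏ i, m i := Nat.mul_le_mul_left 3 h4
    calc 3 = 1 * (3 * 1) := rfl
      _ ≤ conductor e * (3 * ∏ i, m i) := Nat.mul_le_mul hc.1 h5
  have hD : LiesIn e D := ⟨NeZero.pos D, fun x => cyc_le _ _ (hc.2 x)⟩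
  refine factorRelation_of_piece P hκ hD hD3
    (fun l τ hτ => by rw [(isPhi_iff e hD.2 l τ).1 hτ])
    (relPiece_of_good hκ hD.2 fun δ c hcf i => ?_)
  have hmD : m i ∣ D := ((Finset.dvd_prod_of_mem m (Finset.mem_univ i)).trans
    (Dvd.intro_left 3 rfl)).trans (Dvd.intro_left _ rfl)
  have h6 : κ (bas K i) = y i + (κ (bas K i) - y i) := by abel
  rw [h6]
  refine good_add (hgood i D hmD hD3 δ c hcf) (good_tate hD3 hcf ?_ fun w => hyt i w)
  intro b hb
  exact sub_mem ((hκ _).betti b hb) ((isHom_of_span h1 (hy i)).betti b hb)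

/-- The same, with the relation at all levels. -/
theorem factorRelation_of_span (P : Pol S) (G : Set (Module.End ℂ S.W))
    (h1 : ∀ g ∈ G, IsHom S S g) (h2 : ∀ g ∈ G, ∃ N, 0 < N ∧ g ^ N = 1)
    (h3 : ∀ g ∈ G, ∀ (N : ℕ) [NeZero N], 3 ≤ N → g ^ N = 1 → ∀ a, RelPiece N S (eigPiece N S g a))
    {e : K →+* ℂ} (he : ∃ d, LiesIn e d) (hκ : ∀ a, IsHom S S (κ a))
    (hk : ∀ a, ∃ y ∈ Submodule.span ℚ G, ∀ x, κ a x - y x ∈ tateSpan S) :
    FactorRelation κ e :=
  factorRelation_of_levels P G h1 (fun g hg => by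
    obtain ⟨M, hM, hgM⟩ := h2 g hg
    refine ⟨M, hM, hgM, fun N _ hN hMN => h3 g hg N hN ?_⟩
    obtain ⟨k, rfl⟩ := hMN
    rw [pow_mul, hgM, one_pow]) he hκ hk

end action

end GD.GA
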