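import Pool.Agent.H75.GA.Lin
import Pool.Agent.H44.GD.LegD
import Pool.Agent.H5.GD.Bridge
import Pool.Agent.H5.GD.Level
import Pool.Agent.H26.DT.Core

/-! Logarithmic derivatives of gamma products are linear in the Hodge types. -/

noncomputable section

namespace GD.GA

open Complex Module

/-- the logarithmic derivative -/
def dlog (δ : Derivation Qbar ℂ ℂ) (x : ℂ) : ℂ := δ x / x

variable (δ : Derivation Qbar ℂ ℂ)

theorem dlog_mul {x y : ℂ} (hx : x ≠ 0) (hy : y ≠ 0) :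
    dlog δ (x * y) = dlog δ x + dlog δ y := der_div_mul δ hx hy

theorem dlog_alg {x : ℂ} (h : IsAlgebraic ℚ x) : dlog δ x = 0 := by
  rw [dlog, der_of_isAlgebraic δ h, zero_div]

theorem dlog_sim {x y : ℂ} (h : Sim x y) : dlog δ x = dlog δ y := by
  have h1 := dlog_mul δ (div_ne_zero h.1 h.2.1) h.2.1
  rw [div_mul_cancel₀ _ h.2.1, dlog_alg δ h.2.2, zero_add] at h1
  exact h1

theorem sim_of_dlog {x y : ℂ} (hx : x ≠ 0) (hy : y ≠ 0) (h : ∀ δ, dlog δ x = dlog δ y) :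
    Sim x y := by
  refine ⟨hx, hy, isAlgebraic_of_der fun δ => ?_⟩
  have h1 := dlog_mul δ (div_ne_zero hx hy) hy
  rw [div_mul_cancel₀ _ hy, h δ] at h1
  have h2 : dlog δ (x / y) = 0 := add_eq_right.1 h1.symm
  rw [dlog, div_eq_zero_iff] at h2
  exact h2.resolve_right (div_ne_zero hx hy)

variable (D : ℕ) [NeZero D]

theorem gammaProd_add (ε ε' : ZMod D → ℚ) (l : (ZMod D)ˣ) :
    gammaProd D (ε + ε') l = gammaProd D ε l * gammaProd D ε' l := by
  have hd : 0 < D := NeZero.pos D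
  have hdR : (0 : ℝ) < D := by exact_mod_cast hd
  have hpos : ∀ a : ZMod D, 0 < Real.Gamma (1 - (a.val : ℝ) / D) := by
    intro a
    apply Real.Gamma_pos_of_pos
    rw [sub_pos, div_lt_one hdR]
    exact_mod_cast ZMod.val_lt a
  rw [gammaProd, gammaProd, gammaProd, ← Finset.prod_mul_distrib]
  refine Finset.prod_congr rfl fun a _ => ?_
  rw [Pi.add_apply, Rat.cast_add, Real.rpow_add (hpos a)]

theorem gammaProd_shift (ε : ZMod D → ℚ) (m : (ZMod D)ˣ) :
    gammaProd D (fun a => ε (a * ((m⁻¹ : (ZMod D)ˣ) : ZMod D))) 1 = gammaProd D ε m := by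
  rw [gammaProd, gammaProd]
  refine Finset.prod_congr rfl fun a _ => ?_
  rw [inv_one, Units.val_one, mul_one]

/-- the types -/
def typMap : (ZMod D → ℚ) →ₗ[ℚ] ((ZMod D)ˣ → ℚ) where
  toFun ε l := tsum' D (fun x => x) ε l
  map_add' ε ε' := by
    funext l
    exact tsum_add (fun x => x) ε ε' l
  map_smul' q ε := by
    funext l
    exact GD.tsum_mul_left (fun x => x) q ε l

/-- the logarithmic derivative of the gamma product -/
def gamMap : (ZMod D → ℚ) →+ ℂ where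
  toFun ε := dlog δ ((gammaProd D ε 1 : ℝ) : ℂ)
  map_zero' := by
    have h1 : gammaProd D 0 1 = 1 := by
      rw [gammaProd]
      refine Finset.prod_eq_one fun a _ => ?_
      rw [Pi.zero_apply, Rat.cast_zero, Real.rpow_zero]
    rw [h1, Complex.ofReal_one]
    exact dlog_alg δ isAlgebraic_one
  map_add' ε ε' := by
    rw [gammaProd_add, Complex.ofReal_mul]
    exact dlog_mul δ (gammaProd_ne _ _ _) (gammaProd_ne _ _ _)

theorem gamMap_zero {ε : ZMod D → ℚ} (h : typMap D ε = 0) : gamMap δ D ε = 0 := by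
  apply dlog_alg
  have h1 := cls_gammaProd gammaSpec D ε 1
  have h2 := ko' gammaSpec D ε 0 (fun l => by
    have h3 := congrFun h l
    change tsum' D (fun x => x) ε l = 0 at h3
    rw [h3]
    simp [tsum']) 1
  have h4 : tsum' D (gam Pool.Agent.H11.GD.cls) (0 : ZMod D → ℚ) 1 = 0 := by
    simp [tsum']
  rw [h2, h4] at h1
  exact (gammaSpec.zero_iff _ (gammaProd_ne _ _ _)).1 h1

/-- the coefficients -/
theorem exists_coef : ∃ c : (ZMod D)ˣ → ℂ, ∀ (ε : ZMod D → ℚ) (m : (ZMod D)ˣ),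
    dlog δ ((gammaProd D ε m : ℝ) : ℂ) =
      ∑ l : (ZMod D)ˣ, c l * ((tsum' D (fun x => x) ε (l * m) : ℚ) : ℂ) := by
  classical
  let A := typMap D
  let B : (ZMod D → ℚ) →ₗ[ℚ] ℂ := (gamMap δ D).toRatLinearMap
  have hker : LinearMap.ker A ≤ LinearMap.ker B := by
    intro ε hε
    rw [LinearMap.mem_ker] at hε ⊢
    exact gamMap_zero δ D hε
  let f : LinearMap.range A →ₗ[ℚ] ℂ :=
    ((LinearMap.ker A).liftQ B hker).comp A.quotKerEquivRange.symm.toLinearMap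
  obtain ⟨Φ, hΦ⟩ := LinearMap.exists_extend f
  have hAB : ∀ ε, Φ (A ε) = B ε := by
    intro ε
    have h1 := LinearMap.congr_fun hΦ ⟨A ε, ε, rfl⟩
    rw [LinearMap.comp_apply, Submodule.subtype_apply] at h1
    rw [h1]
    have h2 : A.quotKerEquivRange.symm ⟨A ε, ε, rfl⟩ = Submodule.Quotient.mk ε := by
      rw [LinearEquiv.symm_apply_eq]
      rfl
    change (LinearMap.ker A).liftQ B hker (A.quotKerEquivRange.symm ⟨A ε, ε, rfl⟩) = _
    rw [h2]
    rfl
  have hex : ∀ v : (ZMod D)ˣ → ℚ, Φ v = ∑ l, Φ (Pi.single l 1) * ((v l : ℚ) : ℂ) := by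
    intro v
    have h1 : v = ∑ l, v l • (Pi.single l (1 : ℚ) : (ZMod D)ˣ → ℚ) := by
      funext i
      simp [Finset.sum_apply, Pi.single_apply]
    conv_lhs => rw [h1]
    rw [map_sum]
    refine Finset.sum_congr rfl fun l _ => ?_
    rw [map_smul, mul_comm]
    exact Rat.smul_def _ _
  refine ⟨fun l => Φ (Pi.single l 1), fun ε m => ?_⟩
  rw [← gammaProd_shift D ε m]
  have h1 := hAB (fun a => ε (a * ((m⁻¹ : (ZMod D)ˣ) : ZMod D)))
  have h2 : B (fun a => ε (a * ((m⁻¹ : (ZMod D)ˣ) : ZMod D))) =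
    dlog δ ((gammaProd D (fun a => ε (a * ((m⁻¹ : (ZMod D)ˣ) : ZMod D))) 1 : ℝ) : ℂ) := rfl
  rw [← h2, ← h1, hex]
  refine Finset.sum_congr rfl fun l _ => ?_
  congr 2
  exact tsum_shift (fun x => x) ε l m

/-- the sum of the coefficients -/
theorem sum_coef (hD : 3 ≤ D) {c : (ZMod D)ˣ → ℂ} (hc : ∀ (ε : ZMod D → ℚ) (m : (ZMod D)ˣ),
    dlog δ ((gammaProd D ε m : ℝ) : ℂ) =
      ∑ l : (ZMod D)ˣ, c l * ((tsum' D (fun x => x) ε (l * m) : ℚ) : ℂ)) :
    ∑ l, c l = dlog δ ((Real.pi : ℝ) : ℂ) := by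
  obtain ⟨ε, hε⟩ := ex' gammaSpec D hD 2 (fun _ => 1) (fun _ => by norm_num)
  have h1 := hc ε 1
  simp only [hε, Rat.cast_one, mul_one] at h1
  rw [← h1]
  have hpi : ((Real.pi : ℝ) : ℂ) ≠ 0 := by exact_mod_cast Real.pi_ne_zero
  refine (dlog_sim δ (sim_of_cls gammaSpec (gammaProd_ne _ _ _) hpi ?_))
  rw [cls_gammaProd gammaSpec, gam_const gammaSpec D 1 ε hε (by omega) 1, one_smul]

end GD.GA
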