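import Pool.Agent.H75.GA.Kap
import Pool.Agent.H75.GA.Ext
import Pool.Agent.H65.GC.Pieces
import Pool.Agent.H44.FM.Mult

/-! The relation for the pieces in terms of traces; field pieces. -/

noncomputable section

namespace GD.GA

open Complex Module NumberField

/-- the coefficients of the logarithmic derivatives of the gamma products of level `N` -/
def IsCoef (δ : Derivation Qbar ℂ ℂ) (N : ℕ) [NeZero N] (c : (ZMod N)ˣ → ℂ) : Prop :=
  ∀ (ε : ZMod N → ℚ) (m : (ZMod N)ˣ), dlog δ ((gammaProd N ε m : ℝ) : ℂ) =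
    ∑ l : (ZMod N)ˣ, c l * ((tsum' N (fun x => x) ε (l * m) : ℚ) : ℂ)

variable {S : Str} {N : ℕ} [NeZero N]

theorem spacePeriod_dlog {U : Submodule ℂ S.W} {z : ℂ} (hz : IsSpacePeriod S U z) :
    z ≠ 0 ∧ ∀ δ, trOn (S.A δ) U = dlog δ z := by
  obtain ⟨n, v, ω, Φ, hv, hvs, hω, hωs, hvB, hωD, hΦ, rfl⟩ := hz
  have h1 := fun δ => trace_A_matrix δ U v ω Φ hv hvs hω hωs hvB hωD hΦ
  exact ⟨(h1 0).1, fun δ => (h1 δ).2⟩

theorem type_iff {t : ℕ} {ε : ZMod N → ℚ} {l : (ZMod N)ˣ} :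
    (N : ℚ) * t = ∑ a ∈ Finset.univ.erase (0 : ZMod N), ε a * (((l : ZMod N) * a).val : ℚ) ↔
      tsum' N (fun x => x) ε l = t := by
  have hN : (N : ℚ) ≠ 0 := by exact_mod_cast NeZero.ne N
  rw [sum_erase, ← tsum_id]
  constructor
  · intro h
    exact (mul_left_cancel₀ hN h).symm
  · intro h
    rw [h]

/-- the relation from the formula for the traces -/
theorem rel_of_lin {U : (ZMod N)ˣ → Submodule ℂ S.W}
    (h : ∀ δ c, IsCoef δ N c → ∀ m, trOn (S.A δ) (U m) =
      ∑ l, c l * (spaceType S (U (l * m)) : ℂ)) : RelPiece N S U := by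
  intro ε hε l z hz
  obtain ⟨h0, h1⟩ := spacePeriod_dlog hz
  refine sim_of_dlog h0 (gammaProd_ne _ _ _) fun δ => ?_
  obtain ⟨c, hc⟩ := exists_coef δ N
  rw [← h1 δ, hc, h δ c hc l]
  refine Finset.sum_congr rfl fun l' _ => ?_
  rw [type_iff.1 (hε (l' * l)), Rat.cast_natCast]

/-- the formula for the traces from the relation -/
theorem lin_of_rel (hN : 3 ≤ N) {U : (ZMod N)ˣ → Submodule ℂ S.W} {w : ℕ}
    (ht : ∀ l, spaceType S (U l) + spaceType S (U (-l)) = w) (h : RelPiece N S U)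
    {m : (ZMod N)ˣ} (hz : ∃ z, IsSpacePeriod S (U m) z)
    {δ : Derivation Qbar ℂ ℂ} {c : (ZMod N)ˣ → ℂ} (hc : IsCoef δ N c) :
    trOn (S.A δ) (U m) = ∑ l, c l * (spaceType S (U (l * m)) : ℂ) := by
  obtain ⟨z, hz⟩ := hz
  obtain ⟨ε, hε⟩ := ex' gammaSpec N hN w (fun l => (spaceType S (U l) : ℚ)) (fun l => by
    exact_mod_cast ht l)
  have h1 := h ε (fun l => type_iff.2 (hε l)) m z hz
  rw [(spacePeriod_dlog hz).2 δ, dlog_sim δ h1, hc]
  refine Finset.sum_congr rfl fun l' _ => ?_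
  rw [hε, Rat.cast_natCast]

/-! ### The parts of an action -/

section part

variable {K : Type} [Field K] {κ : K →ₙ+* Module.End ℂ S.W}

theorem part_bot (h : κ 1 = 0) (τ : K →+* ℂ) : eigenpart κ τ = ⊥ := by
  rw [Submodule.eq_bot_iff]
  intro x hx
  have h1 := (mem_eigenpart κ τ x).1 hx 1
  rw [h, LinearMap.zero_apply, map_one τ, one_smul] at h1
  exact h1.symm

theorem trOn_bot (X : Module.End ℂ S.W) : trOn X (⊥ : Submodule ℂ S.W) = 0 := by
  have h1 : ∀ x ∈ (⊥ : Submodule ℂ S.W), X x ∈ (⊥ : Submodule ℂ S.W) := by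
    intro x hx
    rw [Submodule.mem_bot] at hx ⊢
    rw [hx, map_zero]
  rw [trOn_of_stable h1]
  have h2 : X.restrict h1 = 0 := by
    apply LinearMap.ext
    intro x
    exact Subsingleton.elim _ _
  rw [h2, map_zero]

theorem spaceType_bot : spaceType S ⊥ = 0 := by
  rw [spaceType]
  refine Finset.sum_eq_zero fun p _ => ?_
  rw [bot_inf_eq, finrank_bot, mul_zero]

theorem spacePeriod_bot : IsSpacePeriod S ⊥ 1 :=
  ⟨0, Fin.elim0, Fin.elim0, 1, linearIndependent_empty_type, by simp, linearIndependent_empty_type,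
    by simp, fun j => j.elim0, fun j => j.elim0, fun j => j.elim0, by simp⟩

variable [NumberField K] (hκ : ∀ a, IsHom S S (κ a))

include hκ

theorem part_period (τ : K →+* ℂ) : ∃ z, IsSpacePeriod S (eigenpart κ τ) z := by
  by_cases h1 : κ 1 = 0
  · rw [part_bot h1]
    exact ⟨1, spacePeriod_bot⟩
  · obtain ⟨M, ι, hM, hne, hι, hικ, hMQ, hcx, hact⟩ := exists_sub κ hκ h1
    obtain ⟨z, n, v, ω, Φ, hv, hvs, hω, hωs, hvB, hωD, hΦ, hz⟩ := exists_detPeriod ι hM hι τ
    refine ⟨z, n, v, ω, Φ, hv, by rw [hvs, hικ], hω, by rw [hωs, hικ], fun j => ?_, hωD, hΦ, hz⟩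
    exact Submodule.span_mono (fun x hx => hM.le hx) (hvB j)

theorem part_type (P : Pol S) : ∃ w : ℕ, ∀ τ, spaceType S (eigenpart κ τ) +
    spaceType S (eigenpart κ (ComplexEmbedding.conjugate τ)) = w := by
  by_cases h1 : κ 1 = 0
  · exact ⟨0, fun τ => by rw [part_bot h1, part_bot h1, spaceType_bot]⟩
  · obtain ⟨M, ι, hM, hne, hι, hικ, hMQ, hcx, hact⟩ := exists_sub κ hκ h1
    by_cases hτ : Nonempty (K →+* ℂ)
    · obtain ⟨τ₀⟩ := hτ
      refine ⟨finrank ℂ (eig ι τ₀) * S.wt, fun τ => ?_⟩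
      rw [← hικ, ← hικ, finrank_eig ι hM hι τ₀ τ]
      exact leg_type ι P hM hι τ
    · exact ⟨0, fun τ => absurd ⟨τ⟩ hτ⟩

theorem part_trace {X : Module.End ℂ S.W} (hX : ∀ a, X * κ a = κ a * X) (τ : K →+* ℂ) :
    trOn X (eigenpart κ τ) = ∑ i, τ (bad K i) * LinearMap.trace ℂ S.W (X * κ (bas K i)) := by
  by_cases h1 : κ 1 = 0
  · rw [part_bot h1, trOn_bot]
    symm
    refine Finset.sum_eq_zero fun i _ => ?_
    have h2 : κ (bas K i) = 0 := by
      rw [← mul_one (bas K i), map_mul κ, h1, mul_zero]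
    rw [h2, mul_zero, map_zero, mul_zero]
  · obtain ⟨M, ι, hM, hne, hι, hικ, hMQ, hcx, hact⟩ := exists_sub κ hκ h1
    have hXM : ∀ x ∈ S.cx M, X x ∈ S.cx M := by
      intro x hx
      rw [hcx] at hx ⊢
      obtain ⟨y, rfl⟩ := hx
      exact ⟨X y, (LinearMap.congr_fun (hX 1) y).symm⟩
    have hc : ∀ a, ∀ x : S.cx M, X (ι a x : S.W) = (ι a ⟨X x, hXM x x.2⟩ : S.W) := by
      intro a x
      rw [hact, hact]
      exact LinearMap.congr_fun (hX a) x
    rw [← hικ, trOn_eig ι X hXM hc τ]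
    refine Finset.sum_congr rfl fun i _ => ?_
    congr 1
    have hmem : ∀ x, (X * κ (bas K i)) x ∈ S.cx M := by
      intro x
      apply hXM
      rw [hcx]
      refine ⟨κ (bas K i) x, ?_⟩
      rw [← Module.End.mul_apply, ← map_mul, one_mul]
    rw [← LinearMap.trace_restrict_eq_of_forall_mem (S.cx M) (X * κ (bas K i)) hmem]
    congr 1
    apply LinearMap.ext
    intro x
    apply Subtype.ext
    change X (ι (bas K i) x : S.W) = X (κ (bas K i) (x : S.W))
    rw [hact]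

theorem part_hOp (τ : K →+* ℂ) :
    trOn (DT.hOp S) (eigenpart κ τ) = (spaceType S (eigenpart κ τ) : ℂ) := by
  by_cases h1 : κ 1 = 0
  · rw [part_bot h1, trOn_bot, spaceType_bot, Nat.cast_zero]
  · obtain ⟨M, ι, hM, hne, hι, hικ, hMQ, hcx, hact⟩ := exists_sub κ hκ h1
    rw [← hικ, trOn_hOp_eig ι hM hι]
    rfl

end part

section fieldPiece

variable {K : Type} [Field K] [NumberField K] {κ : K →ₙ+* Module.End ℂ S.W}

/-- Field pieces in structures generated by a class for which the conjecture holds. -/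
theorem rel_fieldPiece {C : Str → Prop} (hS : Gen C S) (P : Pol S) {e : K →+* ℂ}
    (h : TriplesFor (Gen C) e) (he : LiesIn e N) (hκ : ∀ a, IsHom S S (κ a))
    {U : (ZMod N)ˣ → Submodule ℂ S.W} (hU : IsFieldPiece N S e κ U) : RelPiece N S U := by
  have hUp : ∀ l, U l = eigenpart κ (phi e he.2 l) := fun l =>
    hU l _ ((isPhi_iff e he.2 l _).2 rfl)
  by_cases h1 : κ 1 = 0
  · refine rel_of_lin fun δ c _ m => ?_
    rw [hUp, part_bot h1, trOn_bot]
    symm
    refine Finset.sum_eq_zero fun l _ => ?_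
    rw [hUp, part_bot h1, spaceType_bot, Nat.cast_zero, mul_zero]
  · obtain ⟨M, ι, hM, hne, hι, hικ, hMQ, hcx, hact⟩ := exists_sub κ hκ h1
    obtain ⟨k, -, f, hfc, hfp⟩ := DT.exists_fam_tpow ι P hM hne hι
    have hrel : DetRelation ι e := detRelation_of hM.le ι ⟨N, he⟩ f hfc hfp
      (h _ (powOf_gen hS (powOf_tpow S k)))
    choose z hz using fun τ => exists_detPeriod ι hM hι τ
    have hall : RelAll Pool.Agent.H11.GD.cls N e he.2 z (detType ι) := by
      obtain ⟨τ₀⟩ : Nonempty (K →+* ℂ) := ⟨e⟩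
      have hN : ∀ τ, detType ι τ + detType ι (ComplexEmbedding.conjugate τ) =
          finrank ℂ (eig ι τ₀) * S.wt := by
        intro τ
        rw [finrank_eig ι hM hι τ₀ τ]
        exact leg_type ι P hM hι τ
      by_cases him : ∃ x, (e x).im ≠ 0
      · exact relAll_of_det gammaSpec ι him hrel hz hN he.2
      · push Not at him
        refine relAll_of_real gammaSpec him hN (fun τ => ?_) he.2
        rw [finrank_eig ι hM hι τ₀ τ]
        exact leg_period ι P hM hι τ (hz τ) (hz _)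
    intro ε hε l z' hz'
    have h2 := hall ε (fun l' => by
      rw [type_iff.1 (hε l'), hUp, ← hικ]
      rfl) l
    have hz0 := detPeriod_trace ι hM.le (hz (phi e he.2 l))
    have h3 : Sim (z (phi e he.2 l)) (gammaProd N ε l) := by
      refine sim_of_cls gammaSpec hz0.1 (gammaProd_ne _ _ _) ?_
      rw [h2, cls_gammaProd gammaSpec]
    refine Sim.trans (sim_of_dlog (spacePeriod_dlog hz').1 hz0.1 fun δ => ?_) h3
    rw [← (spacePeriod_dlog hz').2 δ, hUp, ← hικ]
    exact hz0.2 δ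

/-- Eigenspaces of automorphisms of finite order in structures generated by a class for which the
conjecture holds. -/
theorem rel_eigPiece {C : Str → Prop} (hS : Gen C S) (P : Pol S)
    (h : ∀ (F : Type) [Field F] [NumberField F] (e : F →+* ℂ), (∃ d, LiesIn e d) →
      TriplesFor (Gen C) e) {g : Module.End ℂ S.W} (hg : IsHom S S g) (hN : g ^ N = 1)
    (a : ZMod N) : RelPiece N S (eigPiece N S g a) := by
  have he : LiesIn (algebraMap (fld N a) ℂ) N := ⟨NeZero.pos N, fe_mem N a⟩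
  refine rel_fieldPiece (κ := kap hN a) hS P (h _ _ ⟨N, he⟩) he (isHom_kap hg hN a) ?_
  intro l τ hτ
  rw [isPhi_iff _ (fe_mem N a)] at hτ
  rw [hτ, kap_eigenpart]
  rfl

end fieldPiece

end GD.GA
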