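import Pool.Agent.H26.DT.Defs2

/-!
# Determinants of periods of the eigenspaces of an automorphism
-/

noncomputable section

namespace GD

open Complex

section eigen

variable (S : Str) (g : Module.End ℂ S.W) (N : ℕ)

/-- The eigenspace of `g` for the root of unity `exp (2 π i j / N)`. -/
def eigSpace (j : ZMod N) : Submodule ℂ S.W := Module.End.eigenspace g (zeta N ^ j.val)

/-- The Hodge type of the determinant of this eigenspace: the sum of the `p` in the Hodge types
`(p, q)` of the eigenspace, counted with multiplicity. -/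
def eigType (j : ZMod N) : ℕ :=
  ∑ p ∈ Finset.range (S.wt + 1),
    p * Module.finrank ℂ (eigSpace S g N j ⊓ S.hodge p : Submodule ℂ S.W)

/-- `z` is a determinant of periods of this eigenspace: the determinant of a matrix which expresses a
basis `ω` consisting of de Rham vectors in a basis `v` consisting of vectors of the span of the
rational form over the algebraic numbers. -/
def IsEigPeriod (j : ZMod N) (z : ℂ) : Prop :=
  ∃ (n : ℕ) (v ω : Fin n → S.W) (P : Matrix (Fin n) (Fin n) ℂ),
    LinearIndependent ℂ v ∧ Submodule.span ℂ (Set.range v) = eigSpace S g N j ∧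
    LinearIndependent ℂ ω ∧ Submodule.span ℂ (Set.range ω) = eigSpace S g N j ∧
    (∀ j, v j ∈ Submodule.span Qbar (S.B : Set S.W)) ∧ (∀ j, ω j ∈ S.D) ∧
    (∀ i, ω i = ∑ j, P i j • v j) ∧ z = P.det

/-- The relation of Gross and Deligne for the determinants of the eigenspaces of an automorphism
`g` of finite order. -/
def EigRel : Prop :=
  ∀ (N : ℕ) [NeZero N], g ^ N = 1 → ∀ (j : ZMod N) (ε : ZMod N → ℚ),
    (∀ l : (ZMod N)ˣ, (N : ℚ) * eigType S g N (l * j) =
      ∑ a ∈ Finset.univ.erase (0 : ZMod N), ε a * (((l : ZMod N) * a).val : ℚ)) →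
    ∀ (l : (ZMod N)ˣ) (z : ℂ), IsEigPeriod S g N (l * j) z → Sim z (gammaProd N ε l)

end eigen

/-- The finite group `G` acts on `S` by automorphisms. -/
structure GroupAct (G : Type) [Group G] (S : Str) where
  rho : G →* Module.End ℂ S.W
  hom : ∀ g, IsHom S S (rho g)

/-- The centre of the algebra of endomorphisms of `S` is contained in the image of the group algebra
`ℚ[G]`. -/
def GroupAct.Centre {G : Type} [Group G] [Fintype G] {S : Str} (R : GroupAct G S) : Prop :=
  ∀ f, IsHom S S f → (∀ f', IsHom S S f' → f * f' = f' * f) →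
    ∃ a : G → ℚ, f = ∑ g, (a g : ℂ) • R.rho g

end GD
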