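import Pool.Agent.H75.GA.Lin
import Pool.Agent.H26.FM.Fac

/-! The action of a cyclotomic field by an operator of finite order. -/

noncomputable section

namespace GD.GA

open Complex Module

section fld

variable (N : ℕ) [NeZero N] (a : ZMod N)

/-- the field generated by a root of unity -/
def fld : IntermediateField ℚ ℂ := IntermediateField.adjoin ℚ {zeta N ^ a.val}

theorem pow_N (j : ZMod N) : (zeta N ^ j.val) ^ N = 1 := by
  rw [← pow_mul, mul_comm, pow_mul, zeta_pow_N, one_pow]

theorem rt_integral : IsIntegral ℚ (zeta N ^ a.val) := by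
  refine ⟨Polynomial.X ^ N - 1, Polynomial.monic_X_pow_sub_C 1 (NeZero.ne N), ?_⟩
  simp [pow_N]

instance : FiniteDimensional ℚ (fld N a) :=
  IntermediateField.adjoin.finiteDimensional (rt_integral N a)

instance : NumberField (fld N a) where
  to_charZero := inferInstance
  to_finiteDimensional := inferInstance

/-- the generator -/
def gn : fld N a := ⟨zeta N ^ a.val, IntermediateField.subset_adjoin ℚ _ (Set.mem_singleton _)⟩

theorem gn_pow : gn N a ^ N = 1 := Subtype.ext (pow_N N a)

omit [NeZero N] in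
theorem fld_le : fld N a ≤ cyc N := by
  rw [fld, IntermediateField.adjoin_simple_le_iff]
  exact pow_mem (zeta_mem N) _

theorem fe_mem (x : fld N a) : algebraMap (fld N a) ℂ x ∈ cyc N := fld_le N a x.2

theorem emb_gn (σ : fld N a →+* ℂ) : ∃ j : ZMod N, σ (gn N a) = zeta N ^ j.val := by
  have h1 : σ (gn N a) ^ N = 1 := by rw [← map_pow, gn_pow, map_one]
  obtain ⟨i, hi, h2⟩ := (zeta_prim N).eq_pow_of_pow_eq_one h1
  refine ⟨(i : ZMod N), ?_⟩
  rw [ZMod.val_natCast, Nat.mod_eq_of_lt hi, h2]

/-- the index of the eigenspace on which the field acts by `σ` -/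
def idx (σ : fld N a →+* ℂ) : ZMod N := (emb_gn N a σ).choose

theorem idx_spec (σ : fld N a →+* ℂ) : σ (gn N a) = zeta N ^ (idx N a σ).val :=
  (emb_gn N a σ).choose_spec

omit [NeZero N] in
theorem fld_ext (s t : fld N a →+* ℂ) (h : s (gn N a) = t (gn N a)) : s = t := by
  apply (RingHom.equivRatAlgHom (fld N a) ℂ).injective
  have hS : fld N a = IntermediateField.adjoin ℚ {zeta N ^ a.val} := rfl
  refine IntermediateField.algHom_ext_of_eq_adjoin _ hS ?_
  intro x hx
  rw [Set.mem_singleton_iff] at hx
  subst hx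
  exact h

theorem idx_inj {s t : fld N a →+* ℂ} (h : idx N a s = idx N a t) : s = t := by
  apply fld_ext
  rw [idx_spec, idx_spec, h]

theorem idx_phi (l : (ZMod N)ˣ) :
    idx N a (phi (algebraMap (fld N a) ℂ) (fe_mem N a) l) = l * a := by
  apply zeta_inj
  rw [← idx_spec, phi_apply]
  have h1 : ((eRes (algebraMap (fld N a) ℂ) (fe_mem N a) (gn N a) : cyc N) : ℂ) =
      zeta N ^ a.val := rfl
  rw [sAut_zeta N l _ (by rw [h1]; exact pow_N N a)]
  change (zeta N ^ a.val) ^ (l : ZMod N).val = _
  rw [← pow_mul, ZMod.val_mul, mul_comm]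
  exact pow_eq_pow_mod _ (zeta_pow_N (N := N))

end fld

section act

variable {W : Type} [AddCommGroup W] [Module ℂ W] {g : Module.End ℂ W} {N : ℕ} [NeZero N]
  (hg : g ^ N = 1) (a : ZMod N)

include hg in
theorem pr_mul_pr (i j : ZMod N) : pr g N i * pr g N j = if i = j then pr g N i else 0 := by
  apply LinearMap.ext
  intro w
  rw [Module.End.mul_apply, pr_of_mem i j (pr_mem hg j w)]
  by_cases h : i = j
  · rw [if_pos h, if_pos h, h]
  · rw [if_neg h, if_neg h, LinearMap.zero_apply]

/-- the action of the field -/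
def kap : fld N a →ₙ+* Module.End ℂ W where
  toFun x := ∑ σ : fld N a →+* ℂ, σ x • pr g N (idx N a σ)
  map_zero' := by simp
  map_add' x y := by
    simp only [map_add, add_smul]
    exact Finset.sum_add_distrib
  map_mul' x y := by
    classical
    rw [Finset.sum_mul_sum]
    refine Finset.sum_congr rfl fun σ _ => ?_
    rw [Finset.sum_eq_single σ]
    · rw [smul_mul_smul_comm, pr_mul_pr hg, if_pos rfl, map_mul]
    · intro τ _ hτ
      rw [smul_mul_smul_comm, pr_mul_pr hg, if_neg (fun h => hτ (idx_inj N a h).symm), smul_zero]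
    · intro h
      exact absurd (Finset.mem_univ σ) h

theorem kap_apply (x : fld N a) (w : W) :
    kap hg a x w = ∑ σ : fld N a →+* ℂ, σ x • pr g N (idx N a σ) w := by
  change (∑ σ : fld N a →+* ℂ, σ x • pr g N (idx N a σ)) w = _
  rw [LinearMap.sum_apply]
  rfl

/-- the action in terms of the powers of `g` -/
theorem kap_eq (x : fld N a) : kap hg a x = ∑ k ∈ Finset.range N,
    (((N : ℚ)⁻¹ * Algebra.trace ℚ (fld N a) (x * (gn N a)⁻¹ ^ k) : ℚ) : ℂ) • g ^ k := by
  change (∑ σ : fld N a →+* ℂ, σ x • pr g N (idx N a σ)) = _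
  simp only [pr, Finset.smul_sum, smul_smul]
  rw [Finset.sum_comm]
  refine Finset.sum_congr rfl fun k _ => ?_
  rw [← Finset.sum_smul]
  congr 1
  rw [Rat.cast_mul, trace_sum, Finset.mul_sum]
  refine Finset.sum_congr rfl fun σ _ => ?_
  rw [map_mul, map_pow, map_inv₀, idx_spec, inv_pow (zeta N)]
  push_cast
  ring

/-- the parts on which the field acts by its embeddings are the eigenspaces -/
theorem kap_part (τ : fld N a →+* ℂ) : (⨅ x, Module.End.eigenspace (kap hg a x) (τ x)) =
    eg g N (idx N a τ) := by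
  classical
  ext w
  rw [Submodule.mem_iInf]
  simp only [Module.End.mem_eigenspace_iff]
  constructor
  · intro h
    have h0 : ∀ σ : fld N a →+* ℂ, σ ≠ τ → pr g N (idx N a σ) w = 0 := by
      intro σ hσ
      obtain ⟨x, hx⟩ : ∃ x, σ x ≠ τ x := by
        by_contra hcon
        push Not at hcon
        exact hσ (RingHom.ext hcon)
      have h1 : pr g N (idx N a σ) (kap hg a x w) = σ x • pr g N (idx N a σ) w := by
        rw [kap_apply, map_sum, Finset.sum_eq_single σ]
        · rw [map_smul, ← Module.End.mul_apply, pr_mul_pr hg, if_pos rfl]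
        · intro τ' _ hτ'
          rw [map_smul, ← Module.End.mul_apply, pr_mul_pr hg,
            if_neg (fun h => hτ' (idx_inj N a h).symm), LinearMap.zero_apply, smul_zero]
        · intro h
          exact absurd (Finset.mem_univ σ) h
      rw [h x, map_smul] at h1
      have h2 : (τ x - σ x) • pr g N (idx N a σ) w = 0 := by rw [sub_smul, h1, sub_self]
      exact (smul_eq_zero.1 h2).resolve_left (sub_ne_zero.2 (Ne.symm hx))
    have h1 := h 1
    rw [map_one τ, one_smul, kap_apply, Finset.sum_eq_single τ] at h1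
    · rw [map_one τ, one_smul] at h1
      rw [← h1]
      exact pr_mem hg _ _
    · intro σ _ hσ
      rw [h0 σ hσ, smul_zero]
    · intro h
      exact absurd (Finset.mem_univ τ) h
  · intro hw x
    rw [kap_apply, Finset.sum_eq_single τ]
    · rw [pr_of_mem _ _ hw, if_pos rfl]
    · intro σ _ hσ
      rw [pr_of_mem _ _ hw, if_neg (fun h => hσ (idx_inj N a h)), smul_zero]
    · intro h
      exact absurd (Finset.mem_univ τ) h

end act

section str

variable {S : Str}

theorem isHom_zero : IsHom S S 0 :=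
  ⟨rfl, fun _ _ => zero_mem _, fun _ _ => zero_mem _, fun _ _ _ => zero_mem _⟩

theorem isHom_add {f f' : Module.End ℂ S.W} (h : IsHom S S f) (h' : IsHom S S f') :
    IsHom S S (f + f') :=
  ⟨rfl, fun x hx => add_mem (h.betti x hx) (h'.betti x hx),
    fun x hx => add_mem (h.deRham x hx) (h'.deRham x hx),
    fun p x hx => add_mem (h.hodge p x hx) (h'.hodge p x hx)⟩

theorem isHom_smul (q : ℚ) {f : Module.End ℂ S.W} (h : IsHom S S f) :
    IsHom S S ((q : ℂ) • f) := by
  refine ⟨rfl, fun x hx => ?_, fun x hx => ?_, fun p x hx => ?_⟩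
  · rw [LinearMap.smul_apply, ← ratC_smul]
    exact S.B.smul_mem q (h.betti x hx)
  · have h1 : ((q : ℂ) • f) x = (q : Qbar) • f x := by
      rw [LinearMap.smul_apply, Qbar_smul]
      congr 1
    rw [h1]
    exact S.D.smul_mem _ (h.deRham x hx)
  · exact Submodule.smul_mem _ _ (h.hodge p x hx)

theorem isHom_sum {α : Type*} (s : Finset α) {f : α → Module.End ℂ S.W}
    (h : ∀ i ∈ s, IsHom S S (f i)) : IsHom S S (∑ i ∈ s, f i) := by
  classical
  induction s using Finset.induction_on with
  | empty =>
    rw [Finset.sum_empty]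
    exact isHom_zero
  | insert a s ha ih =>
    rw [Finset.sum_insert ha]
    exact isHom_add (h a (Finset.mem_insert_self a s)) (ih fun i hi => h i
      (Finset.mem_insert_of_mem hi))

theorem isHom_pow {f : Module.End ℂ S.W} (h : IsHom S S f) (k : ℕ) : IsHom S S (f ^ k) := by
  induction k with
  | zero => exact IsHom.id S
  | succ k ih =>
    rw [pow_succ]
    exact IsHom.comp ih h

theorem isHom_kap {g : Module.End ℂ S.W} (h : IsHom S S g) {N : ℕ} [NeZero N] (hg : g ^ N = 1)
    (a : ZMod N) (x : fld N a) : IsHom S S (kap hg a x) := by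
  rw [kap_eq]
  exact isHom_sum _ fun k _ => isHom_smul _ (isHom_pow h k)

theorem kap_eigenpart {g : Module.End ℂ S.W} {N : ℕ} [NeZero N] (hg : g ^ N = 1)
    (a : ZMod N) (l : (ZMod N)ˣ) :
    eigenpart (kap hg a) (phi (algebraMap (fld N a) ℂ) (fe_mem N a) l) = eg g N (l * a) := by
  rw [eigenpart, kap_part hg a, idx_phi]

end str

end GD.GA
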