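import Pool.Agent.H75.GA.Defs
import Pool.Agent.H44.GD.Tr
import Pool.Agent.H5.GD.Cyc

/-! Operators of finite order: eigenprojectors and traces. -/

noncomputable section

namespace GD.GA

open Complex Module

variable {W : Type} [AddCommGroup W] [Module ℂ W] (g : Module.End ℂ W) (N : ℕ)

/-- the eigenspace -/
def eg (j : ZMod N) : Submodule ℂ W := Module.End.eigenspace g (zeta N ^ j.val)

/-- the projector onto the eigenspace -/
def pr (j : ZMod N) : Module.End ℂ W :=
  (N : ℂ)⁻¹ • ∑ k ∈ Finset.range N, ((zeta N)⁻¹ ^ j.val) ^ k • g ^ k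

theorem zeta_ne [NeZero N] : zeta N ≠ 0 := (zeta_prim N).ne_zero (NeZero.ne N)

theorem zeta_pow_N [NeZero N] : zeta N ^ N = 1 := (zeta_prim N).pow_eq_one

variable {g N}

theorem mem_eg {j : ZMod N} {w : W} : w ∈ eg g N j ↔ g w = zeta N ^ j.val • w :=
  Module.End.mem_eigenspace_iff

theorem pow_of_mem {j : ZMod N} {w : W} (h : w ∈ eg g N j) (k : ℕ) :
    (g ^ k) w = (zeta N ^ j.val) ^ k • w := by
  induction k with
  | zero => simp
  | succ k ih =>
    rw [pow_succ', Module.End.mul_apply, ih, map_smul, mem_eg.1 h, smul_smul, pow_succ]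

variable [NeZero N]

theorem zeta_inj {i j : ZMod N} (h : zeta N ^ i.val = zeta N ^ j.val) : i = j := by
  have h1 := (zeta_prim N).pow_inj (ZMod.val_lt i) (ZMod.val_lt j) h
  exact ZMod.val_injective N h1

theorem inv_pow_mul (i j : ZMod N) :
    ((zeta N)⁻¹ ^ i.val) * (zeta N ^ j.val) = 1 ↔ i = j := by
  constructor
  · intro h
    rw [inv_pow] at h
    have h1 : zeta N ^ i.val ≠ 0 := pow_ne_zero _ (zeta_ne N)
    exact zeta_inj (by field_simp at h; exact h.symm)
  · rintro rfl
    rw [inv_pow]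
    exact inv_mul_cancel₀ (pow_ne_zero _ (zeta_ne N))

theorem geom_zero {r : ℂ} (h1 : r ^ N = 1) (h : r ≠ 1) : ∑ k ∈ Finset.range N, r ^ k = 0 := by
  have h2 := mul_neg_geom_sum r N
  rw [h1, sub_self] at h2
  exact (mul_eq_zero.1 h2).resolve_left (sub_ne_zero.2 (Ne.symm h))

theorem pr_of_mem (i j : ZMod N) {w : W} (h : w ∈ eg g N j) :
    pr g N i w = if i = j then w else 0 := by
  have h1 : pr g N i w = ((N : ℂ)⁻¹ * ∑ k ∈ Finset.range N,
      (((zeta N)⁻¹ ^ i.val) * (zeta N ^ j.val)) ^ k) • w := by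
    rw [pr, LinearMap.smul_apply, LinearMap.sum_apply, mul_smul, Finset.sum_smul]
    congr 1
    refine Finset.sum_congr rfl fun k _ => ?_
    rw [LinearMap.smul_apply, pow_of_mem h, smul_smul, mul_pow]
  rw [h1]
  have hN : (N : ℂ) ≠ 0 := by exact_mod_cast NeZero.ne N
  by_cases hij : i = j
  · rw [if_pos hij, (inv_pow_mul i j).2 hij]
    simp only [one_pow, Finset.sum_const, Finset.card_range, nsmul_eq_mul, mul_one]
    rw [inv_mul_cancel₀ hN, one_smul]
  · rw [if_neg hij, geom_zero, mul_zero, zero_smul]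
    · rw [mul_pow, ← pow_mul, ← pow_mul, mul_comm i.val, mul_comm j.val, pow_mul, pow_mul, inv_pow,
        zeta_pow_N, inv_one, one_pow, one_pow, one_mul]
    · intro h2
      exact hij ((inv_pow_mul i j).1 h2)

variable (hg : g ^ N = 1)

include hg in
theorem pr_mem (j : ZMod N) (w : W) : pr g N j w ∈ eg g N j := by
  rw [mem_eg]
  have hz : zeta N ^ j.val ≠ 0 := pow_ne_zero _ (zeta_ne N)
  set r : ℂ := (zeta N)⁻¹ ^ j.val with hr
  have hrz : zeta N ^ j.val * r = 1 := by
    rw [hr, inv_pow]
    exact mul_inv_cancel₀ hz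
  have hrN : r ^ N = 1 := by
    rw [hr, ← pow_mul, mul_comm, pow_mul, inv_pow, zeta_pow_N, inv_one, one_pow]
  rw [pr, LinearMap.smul_apply, LinearMap.sum_apply, map_smul, map_sum, smul_comm]
  congr 1
  have h1 : ∀ k ∈ Finset.range N, g ((r ^ k • g ^ k) w) =
      zeta N ^ j.val • (r ^ (k + 1) • (g ^ (k + 1)) w) := by
    intro k _
    rw [LinearMap.smul_apply, map_smul, smul_smul, pow_succ' g k, Module.End.mul_apply, pow_succ' r k,
      ← mul_assoc, hrz, one_mul]
  rw [Finset.sum_congr rfl h1, ← Finset.smul_sum]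
  congr 1
  have h2 := Finset.sum_range_succ (fun k => r ^ k • (g ^ k) w) N
  have h3 := Finset.sum_range_succ' (fun k => r ^ k • (g ^ k) w) N
  rw [h2, hg, hrN] at h3
  simp only [pow_zero, LinearMap.smul_apply] at h3 ⊢
  exact (add_right_cancel h3).symm

theorem sum_pr : ∑ j : ZMod N, pr g N j = 1 := by
  have hN : (N : ℂ) ≠ 0 := by exact_mod_cast NeZero.ne N
  simp only [pr]
  rw [← Finset.smul_sum, Finset.sum_comm]
  have h1 : ∀ k ∈ Finset.range N, ∑ j : ZMod N, ((zeta N)⁻¹ ^ j.val) ^ k • g ^ k =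
      if k = 0 then (N : ℂ) • (1 : Module.End ℂ W) else 0 := by
    intro k hk
    rw [← Finset.sum_smul]
    by_cases h0 : k = 0
    · subst h0
      simp
    · rw [if_neg h0]
      have h2 : ∑ j : ZMod N, ((zeta N)⁻¹ ^ j.val) ^ k =
          ∑ i ∈ Finset.range N, (((zeta N)⁻¹) ^ k) ^ i := by
        rw [← Fin.sum_univ_eq_sum_range (fun i => (((zeta N)⁻¹) ^ k) ^ i) N]
        refine Fintype.sum_equiv (ZMod.finEquiv N).symm.toEquiv _ _ fun j => ?_
        have h3 : ((ZMod.finEquiv N).symm.toEquiv j : ℕ) = j.val := by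
          obtain ⟨n, hn⟩ := Nat.exists_eq_succ_of_ne_zero (NeZero.ne N)
          subst hn
          rfl
        rw [h3, ← pow_mul, ← pow_mul, mul_comm]
      rw [h2, geom_zero, zero_smul]
      · rw [← pow_mul, mul_comm, pow_mul, inv_pow, zeta_pow_N, inv_one, one_pow]
      · intro h3
        rw [inv_pow, inv_eq_one] at h3
        have h4 := (zeta_prim N).dvd_of_pow_eq_one k h3
        exact h0 (Nat.eq_zero_of_dvd_of_lt h4 (Finset.mem_range.1 hk))
  rw [Finset.sum_congr rfl h1, Finset.sum_ite_eq', if_pos (Finset.mem_range.2 (NeZero.pos N)),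
    smul_smul, inv_mul_cancel₀ hN, one_smul]

include hg in
theorem isInternal : DirectSum.IsInternal (eg g N) := by
  rw [DirectSum.isInternal_submodule_iff_iSupIndep_and_iSup_eq_top]
  constructor
  · exact (Module.End.eigenspaces_iSupIndep g).comp (fun _ _ h => zeta_inj h)
  · rw [eq_top_iff]
    intro w _
    have h1 : w = ∑ j : ZMod N, pr g N j w := by
      rw [← LinearMap.sum_apply, sum_pr]
      rfl
    rw [h1]
    exact Submodule.sum_mem _ fun j _ => Submodule.mem_iSup_of_mem j (pr_mem hg j w)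

theorem eg_stable {X : Module.End ℂ W} (hX : X * g = g * X) (j : ZMod N) :
    ∀ x ∈ eg g N j, X x ∈ eg g N j := by
  intro x hx
  rw [mem_eg] at hx ⊢
  have h1 := LinearMap.congr_fun hX x
  rw [Module.End.mul_apply, Module.End.mul_apply] at h1
  rw [← h1, hx, map_smul]

variable [FiniteDimensional ℂ W]

include hg in
theorem trace_eq {X : Module.End ℂ W} (hX : X * g = g * X) :
    LinearMap.trace ℂ W X = ∑ j : ZMod N, trOn X (eg g N j) := by
  rw [LinearMap.trace_eq_sum_trace_restrict (isInternal hg) (fun j => eg_stable hX j)]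
  exact Finset.sum_congr rfl fun j _ => (trOn_of_stable (eg_stable hX j)).symm

include hg in
/-- the trace of `X g` -/
theorem trace_mul {X : Module.End ℂ W} (hX : X * g = g * X) :
    LinearMap.trace ℂ W (X * g) = ∑ j : ZMod N, zeta N ^ j.val * trOn X (eg g N j) := by
  have h1 : (X * g) * g = g * (X * g) := by rw [← mul_assoc g, ← hX]
  rw [trace_eq hg h1]
  refine Finset.sum_congr rfl fun j _ => ?_
  have h2 : (X * g).restrict (eg_stable h1 j) =
      zeta N ^ j.val • X.restrict (eg_stable hX j) := by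
    apply LinearMap.ext
    intro x
    apply Subtype.ext
    change X (g x) = zeta N ^ j.val • X x
    rw [mem_eg.1 x.2, map_smul]
  rw [trOn_of_stable (eg_stable h1 j), trOn_of_stable (eg_stable hX j), h2, map_smul, smul_eq_mul]

theorem pr_comm {X : Module.End ℂ W} (hX : X * g = g * X) (j : ZMod N) :
    X * pr g N j = pr g N j * X := by
  have h1 : ∀ k, X * g ^ k = g ^ k * X := fun k => (Commute.pow_right (show Commute X g from hX) k).eq
  rw [pr, mul_smul_comm, smul_mul_assoc, Finset.mul_sum, Finset.sum_mul]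
  congr 1
  refine Finset.sum_congr rfl fun k _ => ?_
  rw [mul_smul_comm, smul_mul_assoc, h1]

include hg in
/-- the trace on an eigenspace -/
theorem trOn_eg {X : Module.End ℂ W} (hX : X * g = g * X) (j : ZMod N) :
    trOn X (eg g N j) = LinearMap.trace ℂ W (X * pr g N j) := by
  have h1 : (X * pr g N j) * g = g * (X * pr g N j) := by
    rw [mul_assoc, ← pr_comm (g := g) rfl j, ← mul_assoc, hX, mul_assoc]
  rw [trace_eq hg h1]
  have h2 : ∀ i : ZMod N, trOn (X * pr g N j) (eg g N i) = if i = j then trOn X (eg g N j) else 0 := by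
    intro i
    rw [trOn_of_stable (eg_stable h1 i)]
    by_cases hij : i = j
    · subst hij
      rw [if_pos rfl, trOn_of_stable (eg_stable hX i)]
      congr 1
      apply LinearMap.ext
      intro x
      apply Subtype.ext
      change X (pr g N i x) = X x
      rw [pr_of_mem i i x.2, if_pos rfl]
    · rw [if_neg hij]
      have h3 : (X * pr g N j).restrict (eg_stable h1 i) = 0 := by
        apply LinearMap.ext
        intro x
        apply Subtype.ext
        change X (pr g N j x) = 0
        rw [pr_of_mem j i x.2, if_neg (Ne.symm hij), map_zero]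
      rw [h3, map_zero]
  rw [Finset.sum_congr rfl fun i _ => h2 i, Finset.sum_ite_eq', if_pos (Finset.mem_univ j)]

end GD.GA
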