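import Pool.Agent.H75.GA.Lev

/-! Rational traces; endomorphisms into the span of the Tate classes. -/

noncomputable section

namespace GD.GA

open Complex Module NumberField

variable {S : Str} {N : ℕ} [NeZero N]

/-- the trace of a rational operator is rational -/
theorem trace_ratW {f : Module.End ℂ S.W} (hf : ∀ x ∈ S.B, f x ∈ S.B) :
    ∃ q : ℚ, LinearMap.trace ℂ S.W f = q := by
  classical
  have := finite_sub (le_refl S.B)
  let b := Module.finBasis ℚ S.B
  refine ⟨∑ i, b.repr ⟨f (b i), hf _ (b i).2⟩ i, ?_⟩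
  rw [LinearMap.trace_eq_matrix_trace ℂ (formBasis S.B_form b), Matrix.trace]
  push_cast
  refine Finset.sum_congr rfl fun i _ => ?_
  rw [Matrix.diag_apply, LinearMap.toMatrix_apply, formBasis_apply]
  exact formBasis_repr_mem S.B_form b ⟨f (b i), hf _ (b i).2⟩ i

theorem tate_A (δ : Derivation Qbar ℂ ℂ) {w : S.W} (hw : w ∈ tateSpan S) :
    S.A δ w = (((S.wt : ℚ) / 2 : ℚ) * cpi δ : ℂ) • w := by
  induction hw using Submodule.span_induction with
  | mem x hx =>
    obtain ⟨hB, r, hr, hh, hD⟩ := hx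
    rw [A_eigen δ (S.B_le_Bbar hB) (pow_ne_zero r two_pi_I_ne') hD, der_two_pi_pow,
      mul_div_cancel_right₀ _ (pow_ne_zero r two_pi_I_ne'), hr]
    congr 2
    push_cast
    ring
  | zero => rw [map_zero, smul_zero]
  | add x y _ _ hx hy => rw [map_add, hx, hy, smul_add]
  | smul a x _ hx => rw [map_smul, hx, smul_comm]

theorem tate_hOp {w : S.W} (hw : w ∈ tateSpan S) :
    DT.hOp S w = (((S.wt : ℚ) / 2 : ℚ) : ℂ) • w := by
  induction hw using Submodule.span_induction with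
  | mem x hx =>
    obtain ⟨hB, r, hr, hh, hD⟩ := hx
    have h1 : DT.hOp S x = (r : ℂ) • x := DT.hodgeEnd_apply S _ r _ hh
    rw [h1, hr]
    congr 1
    push_cast
    ring
  | zero => rw [map_zero, smul_zero]
  | add x y _ _ hx hy => rw [map_add, hx, hy, smul_add]
  | smul a x _ hx => rw [map_smul, hx, smul_comm]

theorem cpi_eq (δ : Derivation Qbar ℂ ℂ) : cpi δ = dlog δ ((Real.pi : ℝ) : ℂ) := by
  have hpi : ((Real.pi : ℝ) : ℂ) ≠ 0 := by exact_mod_cast Real.pi_ne_zero
  refine dlog_sim δ (sim_of_cls gammaSpec two_pi_I_ne' hpi ?_)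
  have h1 := cls_two_pi_I gammaSpec 1
  rw [pow_one, Nat.cast_one, one_smul] at h1
  exact h1

/-- The trace of `A δ x` is determined by the trace of the Hodge operator times `x`. -/
def Good (S : Str) (D : ℕ) [NeZero D] (δ : Derivation Qbar ℂ ℂ) (c : (ZMod D)ˣ → ℂ)
    (x : Module.End ℂ S.W) : Prop :=
  ∃ t : cyc D, (t : ℂ) = LinearMap.trace ℂ S.W (DT.hOp S * x) ∧
    LinearMap.trace ℂ S.W (S.A δ * x) = ∑ l, c l * ((sAut D l⁻¹ t : cyc D) : ℂ)

variable {δ : Derivation Qbar ℂ ℂ} {c : (ZMod N)ˣ → ℂ}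

theorem good_zero : Good S N δ c 0 := by
  refine ⟨0, ?_, ?_⟩
  · rw [mul_zero, map_zero]
    rfl
  · rw [mul_zero, map_zero]
    symm
    refine Finset.sum_eq_zero fun l _ => ?_
    rw [map_zero]
    exact mul_zero _

theorem good_add {x y : Module.End ℂ S.W} (hx : Good S N δ c x) (hy : Good S N δ c y) :
    Good S N δ c (x + y) := by
  obtain ⟨t, h1, h2⟩ := hx
  obtain ⟨u, h3, h4⟩ := hy
  refine ⟨t + u, ?_, ?_⟩
  · rw [mul_add, map_add, ← h1, ← h3]
    rfl
  · rw [mul_add, map_add, h2, h4, ← Finset.sum_add_distrib]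
    refine Finset.sum_congr rfl fun l _ => ?_
    rw [map_add, ← mul_add]
    rfl

theorem good_smul (q : ℚ) {x : Module.End ℂ S.W} (hx : Good S N δ c x) :
    Good S N δ c ((q : ℂ) • x) := by
  obtain ⟨t, h1, h2⟩ := hx
  refine ⟨(q : cyc N) * t, ?_, ?_⟩
  · rw [mul_smul_comm, map_smul, smul_eq_mul, ← h1]
    rfl
  · rw [mul_smul_comm, map_smul, smul_eq_mul, h2, Finset.mul_sum]
    refine Finset.sum_congr rfl fun l _ => ?_
    rw [map_mul, map_ratCast]
    change _ = c l * ((q : ℂ) * _)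
    ring

/-- rational operators into the span of the Tate classes -/
theorem good_tate (hN : 3 ≤ N) (hc : IsCoef δ N c) {x : Module.End ℂ S.W}
    (hx : ∀ b ∈ S.B, x b ∈ S.B) (h : ∀ w, x w ∈ tateSpan S) : Good S N δ c x := by
  obtain ⟨q, hq⟩ := trace_ratW hx
  have h1 : DT.hOp S * x = (((S.wt : ℚ) / 2 : ℚ) : ℂ) • x := by
    apply LinearMap.ext
    intro w
    exact tate_hOp (h w)
  have h2 : S.A δ * x = (((S.wt : ℚ) / 2 : ℚ) * cpi δ : ℂ) • x := by
    apply LinearMap.ext
    intro w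
    exact tate_A δ (h w)
  refine ⟨(((S.wt : ℚ) / 2 * q : ℚ) : cyc N), ?_, ?_⟩
  · rw [h1, map_smul, hq, smul_eq_mul, ← Rat.cast_mul]
    rfl
  · rw [h2, map_smul, hq, smul_eq_mul]
    have h3 : ∀ l : (ZMod N)ˣ, ((sAut N l⁻¹ (((S.wt : ℚ) / 2 * q : ℚ) : cyc N) : cyc N) : ℂ) =
        (((S.wt : ℚ) / 2 * q : ℚ) : ℂ) := by
      intro l
      rw [map_ratCast]
      rfl
    simp only [h3]
    rw [← Finset.sum_mul, sum_coef δ N hN hc, cpi_eq]
    push_cast
    ring

/-- operators of finite order -/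
theorem good_aut (P : Pol S) (hN : 3 ≤ N) (hc : IsCoef δ N c) {g : Module.End ℂ S.W}
    (hg : IsHom S S g) (hgN : g ^ N = 1) (h : ∀ a, RelPiece N S (eigPiece N S g a)) :
    Good S N δ c g := by
  classical
  have hA : S.A δ * g = g * S.A δ := by
    apply LinearMap.ext
    intro w
    exact A_nat δ g hg.betti hg.deRham w
  have hH : DT.hOp S * g = g * DT.hOp S := by
    apply LinearMap.ext
    intro w
    exact DT.isNat_hOp.nat S S g hg w
  have hpart : ∀ (a : ZMod N) (l : (ZMod N)ˣ), eigPiece N S g a l =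
      eigenpart (kap hgN a) (phi (algebraMap (fld N a) ℂ) (fe_mem N a) l) := fun a l =>
    (kap_eigenpart hgN a l).symm
  let t : ZMod N → ℕ := fun j => spaceType S (eg g N j)
  have h1 : ∀ j, trOn (S.A δ) (eg g N j) = ∑ l : (ZMod N)ˣ, c l * (t (l * j) : ℂ) := by
    intro j
    obtain ⟨w, hw⟩ := part_type (isHom_kap hg hgN j) P
    have h2 := lin_of_rel (m := 1) hN (U := eigPiece N S g j) (w := w) (fun l => by
      rw [hpart, hpart, ← conj_phi]
      exact hw _) (h j) (by
      rw [hpart]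
      exact part_period (isHom_kap hg hgN j) _) hc
    have h3 : eigPiece N S g j 1 = eg g N j := by
      rw [eigPiece, Units.val_one, one_mul]
      rfl
    rw [h3] at h2
    rw [h2]
    refine Finset.sum_congr rfl fun l _ => ?_
    rw [mul_one]
    rfl
  have h2 : ∀ j, trOn (DT.hOp S) (eg g N j) = (t j : ℂ) := by
    intro j
    have h3 : eg g N j = eigenpart (kap hgN j)
        (phi (algebraMap (fld N j) ℂ) (fe_mem N j) 1) := by
      rw [kap_eigenpart, Units.val_one, one_mul]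
    change _ = ((spaceType S (eg g N j) : ℕ) : ℂ)
    rw [h3]
    exact part_hOp (isHom_kap hg hgN j) _
  let y : ZMod N → cyc N := fun j => (⟨zeta N, zeta_mem N⟩ : cyc N) ^ j.val
  have hy : ∀ j, ((y j : cyc N) : ℂ) = zeta N ^ j.val := fun _ => rfl
  have hsy : ∀ (l : (ZMod N)ˣ) (j : ZMod N), sAut N l (y j) = y (l * j) := by
    intro l j
    rw [sAut_zeta N l (y j) (by rw [hy]; exact pow_N N j)]
    apply Subtype.ext
    change (zeta N ^ j.val) ^ (l : ZMod N).val = zeta N ^ ((l : ZMod N) * j).val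
    rw [← pow_mul, ZMod.val_mul, mul_comm]
    exact pow_eq_pow_mod _ (zeta_pow_N (N := N))
  refine ⟨∑ j, y j * (t j : cyc N), ?_, ?_⟩
  · rw [trace_mul hgN hH]
    have h3 : ((∑ j, y j * (t j : cyc N) : cyc N) : ℂ) = ∑ j, zeta N ^ j.val * (t j : ℂ) := by
      rw [AddSubmonoidClass.coe_finsetSum]
      refine Finset.sum_congr rfl fun j _ => ?_
      rfl
    rw [h3]
    exact Finset.sum_congr rfl fun j _ => by rw [h2]
  · rw [trace_mul hgN hA]
    have h3 : ∀ l : (ZMod N)ˣ, ((sAut N l⁻¹ (∑ j, y j * (t j : cyc N)) : cyc N) : ℂ) =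
        ∑ j, zeta N ^ j.val * (t (l * j) : ℂ) := by
      intro l
      rw [map_sum, AddSubmonoidClass.coe_finsetSum]
      rw [← Equiv.sum_comp (Units.mulLeft l)]
      refine Finset.sum_congr rfl fun j _ => ?_
      rw [map_mul, map_natCast, hsy, Units.mulLeft_apply, Units.inv_mul_cancel_left]
      rfl
    simp only [h3, h1, Finset.mul_sum]
    rw [Finset.sum_comm]
    refine Finset.sum_congr rfl fun l _ => Finset.sum_congr rfl fun j _ => ?_
    ring

end GD.GA
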